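import Pool.Agent.R470.Keller.Tz
import Pool.Agent.H928R2.TriM5

/-!
# The trapezoid conjecture and branch curves which are invariant under a vector field

Let `F, G` be a pair of polynomials as in the trapezoid conjecture (conditions 1, 4 and 5), and let
`M` be an intermediate field of `ℂ(x, y) / ℂ(F, G)`, either `ℂ(x, y)` itself or different from
`ℂ(F, G)`.  If the branch curve of the normalisation of the `(F, G)`-plane in `M` is contained in a
curve `D = 0` which after an automorphism of the plane is invariant under a vector field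
`α(x) ∂_x + (β(x) y + γ(x)) ∂_y ≠ 0`, then `[F, G] = 0`.

The theorem on plane Keller maps from which this is deduced is in the starting library
(`Pool.Agent.H928R2.TriM5`, not handed in before).
-/

set_option autoImplicit false

open MvPolynomial

namespace Pool.Agent.Results.MP_2d59ee_ag.BranchCurveVectorField

/-- Let `a, b ≥ 2` be coprime, let `a` divide `m, n > 0` and let `F, G` be complex polynomials whose
Newton polygons are the trapezoids `T_{m,n}` and `T_{bm/a,bn/a}` and whose bracket is constant. Let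
`M` be a field between `ℂ(F, G)` and `ℂ(x, y)` which is `ℂ(x, y)` or is not `ℂ(F, G)`, and let
`D ≠ 0` be a polynomial such that for every polynomial `h` in `M` which is integral over `ℂ[F, G]`
the brackets `[F, h]` and `[G, h]` become integral over `ℂ[F, G]` after multiplication with a power
of `D(F, G)` (this holds if the branch curve of the normalisation of the plane in `M` is contained
in `D = 0`). If for some automorphism `Ψ` of the polynomial ring and some polynomials `α, β, γ` in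
one variable, not all zero, `Ψ D` divides `α(x) ∂_x (Ψ D) + (β(x) y + γ(x)) ∂_y (Ψ D)`, then
`[F, G] = 0`. -/
theorem result (a b m n : ℕ) (hm : 0 < m) (hn : 0 < n) (ham : a ∣ m) (han : a ∣ n)
    (hab : Nat.gcd a b = 1) (ha : 2 ≤ a) (hb : 2 ≤ b)
    (F G : MvPolynomial (Fin 2) ℂ)
    (h1 : convexHull ℝ (insert ((0:ℝ), (0:ℝ))
        ((fun d : Fin 2 →₀ ℕ => ((d 0 : ℝ), (d 1 : ℝ))) '' (↑F.support : Set (Fin 2 →₀ ℕ))))
        = {p : ℝ × ℝ | 0 ≤ p.2 ∧ p.2 ≤ (n : ℝ) ∧ 0 ≤ p.1 ∧ p.1 ≤ (m : ℝ) + (n : ℝ) - p.2})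
    (h4 : convexHull ℝ (insert ((0:ℝ), (0:ℝ))
        ((fun d : Fin 2 →₀ ℕ => ((d 0 : ℝ), (d 1 : ℝ))) '' (↑G.support : Set (Fin 2 →₀ ℕ))))
        = {p : ℝ × ℝ | 0 ≤ p.2 ∧ p.2 ≤ ((b * n / a : ℕ) : ℝ) ∧ 0 ≤ p.1 ∧
            p.1 ≤ ((b * m / a : ℕ) : ℝ) + ((b * n / a : ℕ) : ℝ) - p.2})
    (h5 : ∃ c : ℂ, pderiv 0 F * pderiv 1 G - pderiv 1 F * pderiv 0 G = C c)
    (M : IntermediateField ℂ (FractionRing (MvPolynomial (Fin 2) ℂ)))
    (hFM : algebraMap (MvPolynomial (Fin 2) ℂ) (FractionRing (MvPolynomial (Fin 2) ℂ)) F ∈ M)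
    (hGM : algebraMap (MvPolynomial (Fin 2) ℂ) (FractionRing (MvPolynomial (Fin 2) ℂ)) G ∈ M)
    (hM : M = ⊤ ∨ M ≠ IntermediateField.adjoin ℂ
      {algebraMap (MvPolynomial (Fin 2) ℂ) (FractionRing (MvPolynomial (Fin 2) ℂ)) F,
        algebraMap (MvPolynomial (Fin 2) ℂ) (FractionRing (MvPolynomial (Fin 2) ℂ)) G})
    (D : MvPolynomial (Fin 2) ℂ) (hD : D ≠ 0)
    (het : ∀ h : MvPolynomial (Fin 2) ℂ,
      algebraMap (MvPolynomial (Fin 2) ℂ) (FractionRing (MvPolynomial (Fin 2) ℂ)) h ∈ M →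
      IsIntegral (Algebra.adjoin ℂ {F, G}) h →
      ∃ N : ℕ, IsIntegral (Algebra.adjoin ℂ {F, G})
          ((aeval ![F, G] D) ^ N * (pderiv 0 F * pderiv 1 h - pderiv 1 F * pderiv 0 h)) ∧
        IsIntegral (Algebra.adjoin ℂ {F, G})
          ((aeval ![F, G] D) ^ N * (pderiv 0 G * pderiv 1 h - pderiv 1 G * pderiv 0 h)))
    (Ψ : MvPolynomial (Fin 2) ℂ ≃ₐ[ℂ] MvPolynomial (Fin 2) ℂ) (α β γ : Polynomial ℂ)
    (hαβγ : α ≠ 0 ∨ β ≠ 0 ∨ γ ≠ 0)
    (hdvd : Ψ D ∣ Polynomial.aeval (X 0) α * pderiv 0 (Ψ D) +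
      (Polynomial.aeval (X 0) β * X 1 + Polynomial.aeval (X 0) γ) * pderiv 1 (Ψ D)) :
    pderiv 0 F * pderiv 1 G - pderiv 1 F * pderiv 0 G = 0 := by
  obtain ⟨c, hc⟩ := h5
  by_cases hc0 : c = 0
  · rw [hc, hc0, map_zero]
  exfalso
  have hng := Pool.Agent.R470.Keller.tz_not_good a b m n hm hn ham han hab ha hb F G h1 h4 hc0 hc
  have hJ : IsUnit (Pool.Agent.H922R2.jac ![F, G]).det :=
    Pool.Agent.R470.Keller.det_unit ![F, G] hc0 (by simpa using hc)
  have hr : Set.range ![F, G] = {F, G} := by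
    rw [Matrix.range_cons, Matrix.range_cons, Matrix.range_empty, Set.union_empty]
    rfl
  -- the map is not birational
  have hnb : ∃ z : FractionRing (MvPolynomial (Fin 2) ℂ), z ∉ IntermediateField.adjoin ℂ
      {algebraMap (MvPolynomial (Fin 2) ℂ) (FractionRing (MvPolynomial (Fin 2) ℂ)) F,
        algebraMap (MvPolynomial (Fin 2) ℂ) (FractionRing (MvPolynomial (Fin 2) ℂ)) G} := by
    by_contra hcon
    push Not at hcon
    apply hng
    have h := Pool.Agent.H928R2.Tri.top_of_field ![F, G] hJ (fun z => hcon z)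
    unfold Pool.Agent.H938R2.JC.Good
    rw [← hr, Algebra.adjoin_range_eq_range_aeval]
    exact h
  have key := Pool.Agent.H928R2.Tri.main_M_aut ![F, G] hJ M (by
      intro i
      fin_cases i
      · exact hFM
      · exact hGM) D hD (by
      intro h hh hi j
      rw [hr] at hi ⊢
      obtain ⟨N, hN0, hN1⟩ := het h hh hi
      refine ⟨N, ?_⟩
      fin_cases j
      · exact hN0
      · exact hN1) Ψ α β γ hαβγ hdvd
  rcases hM with hM | hM
  · obtain ⟨z, hz⟩ := hnb
    apply hz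
    apply key z
    rw [hM]
    trivial
  · apply hM
    apply le_antisymm
    · intro z hz
      exact key z hz
    · rw [IntermediateField.adjoin_le_iff]
      rintro x (rfl | hx)
      · exact hFM
      · rw [Set.mem_singleton_iff] at hx
        rw [hx]
        exact hGM

end Pool.Agent.Results.MP_2d59ee_ag.BranchCurveVectorField
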