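import Pool.Agent.R470.Keller.Tz
import Pool.Agent.H928R2.FolMain

/-!
# The trapezoid conjecture for pairs which preserve a foliation, up to a Keller map

Let `F, G` be a pair of polynomials as in the trapezoid conjecture (conditions 1, 4 and 5), let
`H = (U, V)` be any polynomial self-map of the plane with nonzero constant Jacobian determinant (for
instance an automorphism), and let `Φ = (F(U, V), G(U, V))`.  If `Φ` preserves some polynomial
foliation `A dx + B dy = 0`, that is, if `Φ^* (A dx + B dy)` and `A dx + B dy` are proportional, then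
`[F, G] = 0`.

The theorem that a plane Keller map preserving a foliation is an automorphism is in the starting
library (`Pool.Agent.H928R2.FolMain`, not handed in before).
-/

set_option autoImplicit false

open MvPolynomial

namespace Pool.Agent.Results.MP_2d59ee_ag.InvariantFoliation

/-- Let `a, b ≥ 2` be coprime, let `a` divide `m, n > 0` and let `F, G` be complex polynomials whose
Newton polygons are the trapezoids `T_{m,n}` and `T_{bm/a,bn/a}` and whose bracket is constant. Let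
`U, V` be polynomials whose bracket is a nonzero constant, and let `P = F(U, V)`, `Q = G(U, V)`. If
there are polynomials `A, B`, not both zero, such that the 1-form `A(P, Q) dP + B(P, Q) dQ` is
proportional to `A dx + B dy`, then `[F, G] = 0`. -/
theorem result (a b m n : ℕ) (hm : 0 < m) (hn : 0 < n) (ham : a ∣ m) (han : a ∣ n)
    (hab : Nat.gcd a b = 1) (ha : 2 ≤ a) (hb : 2 ≤ b)
    (F G : MvPolynomial (Fin 2) ℂ)
    (h1 : convexHull ℝ (insert ((0:ℝ), (0:ℝ))
        ((fun d : Fin 2 →₀ ℕ => ((d 0 : ℝ), (d 1 : ℝ))) '' (↑F.support : Set (Fin 2 →₀ ℕ))))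
        = {p : ℝ × ℝ | 0 ≤ p.2 ∧ p.2 ≤ (n : ℝ) ∧ 0 ≤ p.1 ∧ p.1 ≤ (m : ℝ) + (n : ℝ) - p.2})
    (h4 : convexHull ℝ (insert ((0:ℝ), (0:ℝ))
        ((fun d : Fin 2 →₀ ℕ => ((d 0 : ℝ), (d 1 : ℝ))) '' (↑G.support : Set (Fin 2 →₀ ℕ))))
        = {p : ℝ × ℝ | 0 ≤ p.2 ∧ p.2 ≤ ((b * n / a : ℕ) : ℝ) ∧ 0 ≤ p.1 ∧
            p.1 ≤ ((b * m / a : ℕ) : ℝ) + ((b * n / a : ℕ) : ℝ) - p.2})
    (h5 : ∃ c : ℂ, pderiv 0 F * pderiv 1 G - pderiv 1 F * pderiv 0 G = C c)
    (U V : MvPolynomial (Fin 2) ℂ)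
    (hUV : ∃ c : ℂ, c ≠ 0 ∧ pderiv 0 U * pderiv 1 V - pderiv 1 U * pderiv 0 V = C c)
    (P Q : MvPolynomial (Fin 2) ℂ) (hP : P = aeval ![U, V] F) (hQ : Q = aeval ![U, V] G)
    (A B : MvPolynomial (Fin 2) ℂ) (hAB : A ≠ 0 ∨ B ≠ 0)
    (hinv : (aeval ![P, Q] A * pderiv 0 P + aeval ![P, Q] B * pderiv 0 Q) * B =
      (aeval ![P, Q] A * pderiv 1 P + aeval ![P, Q] B * pderiv 1 Q) * A) :
    pderiv 0 F * pderiv 1 G - pderiv 1 F * pderiv 0 G = 0 := by
  obtain ⟨c, hc⟩ := h5
  by_cases hc0 : c = 0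
  · rw [hc, hc0, map_zero]
  exfalso
  apply Pool.Agent.R470.Keller.tz_not_good a b m n hm hn ham han hab ha hb F G h1 h4 hc0 hc
  obtain ⟨c', hc'0, hc'⟩ := hUV
  obtain ⟨F', hF', -⟩ := Pool.Agent.H928R2.Pen.foliation_comp ![F, G] ![U, V]
    (Pool.Agent.R470.Keller.det_unit _ hc0 (by simpa using hc))
    (Pool.Agent.R470.Keller.det_unit _ hc'0 (by simpa using hc')) ![P, Q]
    (by
      intro i
      fin_cases i
      · exact hP
      · exact hQ) A B hAB (by simpa using hinv)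
  exact Pool.Agent.R470.Keller.good_of_inv ⟨F', hF'⟩

end Pool.Agent.Results.MP_2d59ee_ag.InvariantFoliation
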