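import Pool.Agent.R470.Keller.Tz
import Pool.Agent.H922R2.OPC.Final2
import Pool.Agent.W420.OPC.Concl2

/-!
# The trapezoid conjecture and curves with one place at infinity

Let `F, G` be a pair of polynomials as in the trapezoid conjecture (conditions 1, 4 and 5), and let
the map `(F, G)` take a curve `f₁ = 0` with one place at infinity into a curve `f₂ = 0` with one place
at infinity.  If `f₂ = 0` is smooth, or `f₁ = 0` is a connected component of the preimage of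
`f₂ = 0`, or `(F, G)` is injective on `f₁ = 0`, then `[F, G] = 0`.  Both curves may have any
singularities in the last two cases.

The theorems on plane Keller maps from which this is deduced are in the starting library
(`Pool.Agent.H922R2.OPC`, `Pool.Agent.W420.OPC`, not handed in before).
-/

set_option autoImplicit false

open MvPolynomial

namespace Pool.Agent.Results.MP_2d59ee_ag.OnePlaceCurves

open Pool.Agent.H922R2.OPC

/-- Laurent series in `t` whose coefficients are polynomials in `λ` -/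
abbrev LS : Type := LaurentSeries (Polynomial ℂ)

/-- the substitution `t ↦ c t` -/
noncomputable def turn (c : ℂ) (h : LS) : LS where
  coeff i := Polynomial.C (c ^ i) * h.coeff i
  isPWO_support' := h.isPWO_support.mono (by
    intro i hi h0
    exact hi (by simp only [h0, mul_zero]))

/-- `h(x, y) ↦ h(t^(-n), Y)`, a polynomial in `Y` with coefficients in the Laurent series -/
noncomputable def atInfinity (n : ℕ) : MvPolynomial (Fin 2) ℂ →ₐ[ℂ] Polynomial LS :=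
  aeval ![Polynomial.C (HahnSeries.single (-(n : ℤ)) 1 : LS), Polynomial.X]

/-- The curves `f = λ` have one place at infinity, with a common Puiseux parametrisation
`x = t^(-n)`, `y = φ(λ, t)` near infinity, after an automorphism `Φ` of the polynomial ring:
`(Φ f)(t^(-n), Y) - λ` is the product of the `Y - φ(λ, ζ^i t)`, `i = 0, ..., n - 1`, where `φ` is a
Laurent series in `t` with coefficients in `ℂ[λ]` and `ζ` is a primitive `n`-th root of unity. -/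
def OnePlace (f : MvPolynomial (Fin 2) ℂ) : Prop :=
  ∃ (Φ : MvPolynomial (Fin 2) ℂ ≃ₐ[ℂ] MvPolynomial (Fin 2) ℂ) (n : ℕ) (φ : LS) (ζ : ℂ),
    0 < n ∧ IsPrimitiveRoot ζ n ∧
      atInfinity n (Φ f) - Polynomial.C (HahnSeries.single 0 Polynomial.X : LS) =
        ∏ i ∈ Finset.range n, (Polynomial.X - Polynomial.C (turn (ζ ^ i) φ))

/-- Let `a, b ≥ 2` be coprime, let `a` divide `m, n > 0` and let `F, G` be complex polynomials whose
Newton polygons are the trapezoids `T_{m,n}` and `T_{bm/a,bn/a}` and whose bracket is constant. Let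
`f₁ = 0` and `f₂ = 0` be curves with one place at infinity and `f₂(F, G) = f₁ r`, so that `(F, G)`
maps `f₁ = 0` into `f₂ = 0`. If `f₂ = 0` is smooth, or `f₁` and `r` have no common zero, or the map
`(F, G)` is injective on the curve `f₁ = 0`, then `[F, G] = 0`. -/
theorem result (a b m n : ℕ) (hm : 0 < m) (hn : 0 < n) (ham : a ∣ m) (han : a ∣ n)
    (hab : Nat.gcd a b = 1) (ha : 2 ≤ a) (hb : 2 ≤ b)
    (F G : MvPolynomial (Fin 2) ℂ)
    (h1 : convexHull ℝ (insert ((0:ℝ), (0:ℝ))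
        ((fun d : Fin 2 →₀ ℕ => ((d 0 : ℝ), (d 1 : ℝ))) '' (↑F.support : Set (Fin 2 →₀ ℕ))))
        = {p : ℝ × ℝ | 0 ≤ p.2 ∧ p.2 ≤ (n : ℝ) ∧ 0 ≤ p.1 ∧ p.1 ≤ (m : ℝ) + (n : ℝ) - p.2})
    (h4 : convexHull ℝ (insert ((0:ℝ), (0:ℝ))
        ((fun d : Fin 2 →₀ ℕ => ((d 0 : ℝ), (d 1 : ℝ))) '' (↑G.support : Set (Fin 2 →₀ ℕ))))
        = {p : ℝ × ℝ | 0 ≤ p.2 ∧ p.2 ≤ ((b * n / a : ℕ) : ℝ) ∧ 0 ≤ p.1 ∧
            p.1 ≤ ((b * m / a : ℕ) : ℝ) + ((b * n / a : ℕ) : ℝ) - p.2})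
    (h5 : ∃ c : ℂ, pderiv 0 F * pderiv 1 G - pderiv 1 F * pderiv 0 G = C c)
    (f₁ f₂ r : MvPolynomial (Fin 2) ℂ) (hf₁ : OnePlace f₁) (hf₂ : OnePlace f₂)
    (hmap : aeval ![F, G] f₂ = f₁ * r)
    (hcase : (∀ p : Fin 2 → ℂ, eval p f₂ = 0 → ∃ i, eval p (pderiv i f₂) ≠ 0) ∨
      (∀ p : Fin 2 → ℂ, eval p f₁ = 0 → eval p r ≠ 0) ∨
      (∀ p q : Fin 2 → ℂ, eval p f₁ = 0 → eval q f₁ = 0 → eval p F = eval q F →
        eval p G = eval q G → p = q)) :
    pderiv 0 F * pderiv 1 G - pderiv 1 F * pderiv 0 G = 0 := by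
  obtain ⟨c, hc⟩ := h5
  by_cases hc0 : c = 0
  · rw [hc, hc0, map_zero]
  exfalso
  have hng := Pool.Agent.R470.Keller.tz_not_good a b m n hm hn ham han hab ha hb F G h1 h4 hc0 hc
  have hJ : IsUnit (jac F G) := by
    unfold jac
    rw [hc]
    exact (isUnit_iff_ne_zero.2 hc0).map C
  obtain ⟨Φ₁, n₁, φ₁, ζ₁, hn₁, hζ₁, hp₁⟩ := hf₁
  obtain ⟨Φ₂, n₂, φ₂, ζ₂, hn₂, hζ₂, hp₂⟩ := hf₂
  have o₁ : OP n₁ (Φ₁ f₁) φ₁ ζ₁ := ⟨hn₁, hζ₁, hp₁⟩
  have o₂ : OP n₂ (Φ₂ f₂) φ₂ ζ₂ := ⟨hn₂, hζ₂, hp₂⟩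
  have hmap' : sb F G f₂ = f₁ * r := hmap
  have fin : (∃ G' : Fin 2 → B ℂ, (∀ i, aeval ![F, G] (G' i) = X i) ∧
      (∀ i, aeval G' (![F, G] i) = X i)) → False := by
    rintro ⟨G', hG', -⟩
    exact hng (Pool.Agent.R470.Keller.good_of_inv ⟨G', hG'⟩)
  have comax : (∀ p : Fin 2 → ℂ, eval p f₁ = 0 → eval p r ≠ 0) → False := by
    intro h
    apply fin
    exact Pool.Agent.W420.OPC.concl2 (mods ℂ) F G f₁ f₂ r hJ Φ₁ Φ₂ n₁ n₂ φ₁ φ₂ ζ₁ ζ₂ o₁ o₂ hmap'
      (Pool.Agent.W420.OPC.comax f₁ r fun p h1 h2 => h p h1 h2)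
  rcases hcase with h | h | h
  · apply comax
    intro p h1 h2
    obtain ⟨i, hi⟩ := h ![eval p F, eval p G] (by
      have e : eval p (aeval ![F, G] f₂) = eval ![eval p F, eval p G] f₂ := by
        rw [show (aeval ![F, G] f₂ : MvPolynomial (Fin 2) ℂ) = sb F G f₂ from rfl,
          eval_map_pt (sb F G) p f₂]
        congr 2
        funext j
        fin_cases j <;> simp [sb]
      rw [← e, hmap, map_mul, h1, zero_mul])
    exact hi (Pool.Agent.W420.OPC.sing F G f₁ f₂ r hJ hmap' p h1 h2 i)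
  · exact comax h
  · apply fin
    exact concl (mods ℂ) F G f₁ f₂ hJ Φ₁ Φ₂ n₁ n₂ φ₁ φ₂ ζ₁ ζ₂ o₁ o₂ ⟨r, hmap'⟩
      (embed (mods ℂ) (firP ℂ) (nakP ℂ) (Pool.Agent.H922R2.OPC.ncpP ℂ) F G f₁ f₂ hJ Φ₁ Φ₂ n₁ n₂ φ₁ φ₂
        ζ₁ ζ₂ o₁ o₂ ⟨r, hmap'⟩ h)

end Pool.Agent.Results.MP_2d59ee_ag.OnePlaceCurves
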