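import Pool.Agent.R470.Keller.Tz
import Pool.Agent.H922R2.L12

/-!
# The trapezoid conjecture and symmetric curves of non-properness

Let `F, G` be a pair of polynomials as in the trapezoid conjecture (conditions 1, 4 and 5).  If the
map `(F, G)` of the plane is finite over the complement of a curve `q = 0` which is mapped to itself
by a polynomial automorphism `ψ` of the plane of infinite order, then `[F, G] = 0`.

The theorem on plane Keller maps from which this is deduced is in the starting library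
(`Pool.Agent.H922R2.L12`, not handed in before).
-/

set_option autoImplicit false

open MvPolynomial

namespace Pool.Agent.Results.MP_2d59ee_ag.SymmetricNonProperness

/-- Let `a, b ≥ 2` be coprime, let `a` divide `m, n > 0` and let `F, G` be complex polynomials whose
Newton polygons are the trapezoids `T_{m,n}` and `T_{bm/a,bn/a}` and whose bracket is constant. Let
`q ≠ 0` be a polynomial such that `x` and `y` become integral over `ℂ[F, G]` after multiplication
with a power of `q(F, G)` (the map `(F, G)` is finite over the complement of the curve `q = 0`). If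
there is an automorphism `ψ` of the polynomial ring, of infinite order, such that `ψ(q)` is a
constant multiple of `q`, then `[F, G] = 0`. -/
theorem result (a b m n : ℕ) (hm : 0 < m) (hn : 0 < n) (ham : a ∣ m) (han : a ∣ n)
    (hab : Nat.gcd a b = 1) (ha : 2 ≤ a) (hb : 2 ≤ b)
    (F G : MvPolynomial (Fin 2) ℂ)
    (h1 : convexHull ℝ (insert ((0:ℝ), (0:ℝ))
        ((fun d : Fin 2 →₀ ℕ => ((d 0 : ℝ), (d 1 : ℝ))) '' (↑F.support : Set (Fin 2 →₀ ℕ))))
        = {p : ℝ × ℝ | 0 ≤ p.2 ∧ p.2 ≤ (n : ℝ) ∧ 0 ≤ p.1 ∧ p.1 ≤ (m : ℝ) + (n : ℝ) - p.2})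
    (h4 : convexHull ℝ (insert ((0:ℝ), (0:ℝ))
        ((fun d : Fin 2 →₀ ℕ => ((d 0 : ℝ), (d 1 : ℝ))) '' (↑G.support : Set (Fin 2 →₀ ℕ))))
        = {p : ℝ × ℝ | 0 ≤ p.2 ∧ p.2 ≤ ((b * n / a : ℕ) : ℝ) ∧ 0 ≤ p.1 ∧
            p.1 ≤ ((b * m / a : ℕ) : ℝ) + ((b * n / a : ℕ) : ℝ) - p.2})
    (h5 : ∃ c : ℂ, pderiv 0 F * pderiv 1 G - pderiv 1 F * pderiv 0 G = C c)
    (q : MvPolynomial (Fin 2) ℂ) (hq : q ≠ 0)
    (hint : ∀ i : Fin 2, ∃ N : ℕ,
      IsIntegral (Algebra.adjoin ℂ {F, G}) ((aeval ![F, G] q) ^ N * X i))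
    (ψ : MvPolynomial (Fin 2) ℂ ≃ₐ[ℂ] MvPolynomial (Fin 2) ℂ) (hψ : ∀ l : ℕ, 0 < l → ψ ^ l ≠ 1)
    (l : ℂ) (hl : ψ q = C l * q) :
    pderiv 0 F * pderiv 1 G - pderiv 1 F * pderiv 0 G = 0 := by
  obtain ⟨c, hc⟩ := h5
  by_cases hc0 : c = 0
  · rw [hc, hc0, map_zero]
  exfalso
  have hng := Pool.Agent.R470.Keller.tz_not_good a b m n hm hn ham han hab ha hb F G h1 h4 hc0 hc
  have hJ : IsUnit (Pool.Agent.H922R2.jac ![F, G]).det :=
    Pool.Agent.R470.Keller.det_unit ![F, G] hc0 (by simpa using hc)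
  have hr : Set.range ![F, G] = {F, G} := by
    rw [Matrix.range_cons, Matrix.range_cons, Matrix.range_empty, Set.union_empty]
    rfl
  have hl0 : l ≠ 0 := by
    rintro rfl
    rw [C_0, zero_mul] at hl
    exact hq ((map_eq_zero_iff _ ψ.injective).1 hl)
  obtain ⟨G', hG', -⟩ := Pool.Agent.H922R2.cprime_any ![F, G] hJ q hq (by rw [hr]; exact hint)
    ψ hψ (by
      rw [hl]
      exact associated_unit_mul_left q (C l) ((isUnit_iff_ne_zero.2 hl0).map C))
  exact hng (Pool.Agent.R470.Keller.good_of_inv ⟨G', hG'⟩)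

end Pool.Agent.Results.MP_2d59ee_ag.SymmetricNonProperness
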